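import Pool.Agent.H259R3.GP10

set_option autoImplicit false

/-!
Free homotopy decompositions with the optimal scaling on the circle.

`gapEnergy ε f` (declared in `Pool.Agent.H259R3.GP4`) is the scaled gap potential: the double
arc-length integral, over pairs of angles `θ, φ` in `[0, 2π]` with
`d(f(e^{iφ}), f(e^{iθ})) > ε`, of `ε / |e^{iφ} - e^{iθ}|^2`.
`FreeDecomp f fs` (declared in `Pool.Agent.H259R3.GP8`) says that `f` has a free homotopy
decomposition into the circle maps `fs 0, ..., fs (k-1)`.

The theorem: for every compact Riemannian manifold `N` (Mathlib's classes; boundary and corners are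
allowed, `N` need not be connected, the distance being then infinite between components) there are
`ε₀ > 0`, `C > 0` and a finite set `F` of circle maps such that every continuous `f` with
`E_ε(f) ≤ l`, `0 < ε < ε₀`, has a free homotopy decomposition into at most `C l` members of `F`.
The set `F` does not even depend on `l`.
-/

open Bundle
open scoped ContDiff Manifold Bundle

namespace Pool.Agent.Results.MP_09d3b1_an.FreeHomotopy

theorem result {E : Type*} [NormedAddCommGroup E] [NormedSpace ℝ E]
    {H : Type*} [TopologicalSpace H] (𝓜 : ModelWithCorners ℝ E H)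
    (N : Type*) [EMetricSpace N] [ChartedSpace H N] [IsManifold 𝓜 ∞ N]
    [Bundle.RiemannianBundle (fun x : N => TangentSpace 𝓜 x)]
    [IsContMDiffRiemannianBundle 𝓜 ∞ E (fun x : N => TangentSpace 𝓜 x)]
    [IsRiemannianManifold 𝓜 N] [CompactSpace N] :
    ∃ ε₀ > 0, ∃ C > 0, ∃ F : Set C(Circle, N), F.Finite ∧
      ∀ l > 0, ∀ ε : ℝ, 0 < ε → ε < ε₀ → ∀ f : C(Circle, N),
        Pool.Agent.H259R3.GP.gapEnergy ε f ≤ ENNReal.ofReal l →
          ∃ k : ℕ, (k : ℝ) ≤ C * l ∧
            ∃ fs : Fin k → C(Circle, N), (∀ i, fs i ∈ F) ∧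
              Pool.Agent.H259R3.GP.FreeDecomp f fs := by
  obtain ⟨r1, r2, ρ, hρ, hr2, hL⟩ := Pool.Agent.H259R3.GP.lsc_of_local
    (Pool.Agent.H259R3.GP.local_of_manifold 𝓜 (N := N))
  exact Pool.Agent.H259R3.GP.main_lsc hρ hr2 hL

end Pool.Agent.Results.MP_09d3b1_an.FreeHomotopy
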